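import Pool.Agent.Q298.AG.Fin2
import Pool.Agent.Results.MP_0f91f8_co.GeneralisedPolynomialColourings

/-!
# Pythagorean triples in colourings given by automatic sequences, numbers of digits and the signs of
# generalised polynomials

Let `c t` be finitely many automatic sequences in arbitrary bases `k t`, and let `g i` be finitely
many generalised polynomials.  Every colouring `χ` with finitely many colours for which `χ n` is an
arbitrary function of the values `c t n`, of the numbers of digits of `n` in the bases `k t` and of
the signs of the `g i n` has arbitrarily large monochromatic Pythagorean triples.

Method.  The starting file `AutomaticColourings` constructs a Pythagorean triple and multipliers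
`f K^e` such that the three products have the same lowest and highest digits in every base.  Here
one sequence `n e` of multipliers is constructed that has this property for infinitely many triples
at the same time (and for the numbers of a sequence `R 0 < R 1 < ⋯`, where the triples have their
larger members close to `R j` and the smaller one close to `R i`).  The words of minimal rank are
combined along an idempotent ultrafilter which is in the closed subsemigroup generated by a limit
of the `n e`; for almost all `x` the products of `x` with all admissible numbers then have the same
transitions.  By the starting file `GeneralisedPolynomialColourings` the signs of the generalised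
polynomials at `x V` are the same for all large `V`, for almost all `x`, for every idempotent
ultrafilter.  A pigeonhole argument for the numbers `R j` gives the triple.
-/

set_option autoImplicit false

namespace Pool.Agent.Results.MP_0f91f8_co.AutomaticPolynomialColourings

open Pool.Agent.H672R2.Auto (IsAutomatic)
open Pool.Agent.Results.MP_0f91f8_co.GeneralisedPolynomialColourings (GenPoly SameSigns)

/-- Let `k t ≥ 2` be bases, `c t` a `k t`-automatic sequence for every `t < m`, `g i` a generalised
polynomial for every `i < s` and let `χ` be a colouring with finitely many colours such that
`χ x = χ y` for all positive integers `x`, `y` with `c t x = c t y` for all `t`, with the same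
number of digits in all the bases `k t` and with the same signs of all `g i`.  Then there are
monochromatic Pythagorean triples with arbitrarily large entries. -/
theorem result {m s : ℕ} {C : Type*} (k : Fin m → ℕ) (hk : ∀ t, 2 ≤ k t)
    (c : Fin m → ℕ → C) (hauto : ∀ t, IsAutomatic (k t) (c t))
    (g : Fin s → ℕ → ℝ) (hg : ∀ i, GenPoly (g i)) {κ : Type*} [Finite κ] (χ : ℕ → κ)
    (hχ : ∀ x y, 0 < x → 0 < y → (∀ t, c t x = c t y) →
      (∀ t, Nat.log (k t) x = Nat.log (k t) y) → SameSigns g x y → χ x = χ y) (L : ℕ) :
    ∃ x y z : ℕ, L < x ∧ L < y ∧ L < z ∧ x ^ 2 + y ^ 2 = z ^ 2 ∧ χ x = χ y ∧ χ y = χ z := by
  choose e he using fun i => (hg i).toEx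
  refine Q298.AG.main2 k hk c hauto e χ (fun x y hx hy h1 h2 h3 => hχ x y hx hy h1 h2 fun i => ?_) L
  rw [← he, ← he]
  exact h3 i

end Pool.Agent.Results.MP_0f91f8_co.AutomaticPolynomialColourings
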