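import Pool.Agent.Q206.PY.Auto

/-!
# Pythagorean triples in colourings computed by finite automata with digit and block counters

A colouring of the positive integers is considered for which the colour of `n` is an arbitrary
function of
* the number of occurrences, in the base `b` expansion of `n`, of every block of at most `L` digits
  (the empty block included, so that the number of digits of `n` may be used), and
* the final states of two finite automata, one reading the digits of `n` from the lowest one up and
  one reading them from the highest one down.
Every such colouring with finitely many colours has monochromatic Pythagorean triples `x, y, z`
larger than any given number.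

Method.  Let `X = b^G`.  The triples are `a b^i` times `4 (X + 1) b^j`, `4 (X + 1)^2 - b^(2j)`,
`4 (X + 1)^2 + b^(2j)`.  For finitely many fixed numbers `x` a multiplier `a` is constructed such
that the numbers `a x` have the same numbers of occurrences of all blocks different from zero
blocks.  The differences `v (a)` of these numbers are additive for the concatenation of padded digit
words, and the sum of `v (a)` over `a < b^M` is `O (b^M)`, while a fixed block occurs about
`M b^M / b^R` times in these `a`; it follows that the sums of the vectors `v (a)` form a group, so
that the vector `v` of a given word can be compensated.  The states of the automata are controlled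
with the help of the minimal ideal of the transition monoid.  The three numbers then differ only in
their lengths, and a pigeonhole argument over the lengths gives the theorem.
-/

set_option autoImplicit false

namespace Pool.Agent.Results.MP_0f91f8_co.BlockCounts

/-- The number of occurrences of the block of `l` digits with value `v` in the base `b` expansion
of `n`, that is, the number of positions `i` such that the digits of `n` at the positions
`i, …, i + l - 1` exist and form the number `v` (`v < b ^ l`). -/
def blockCount (b l v n : ℕ) : ℕ :=
  ((Finset.range ((Nat.digits b n).length + 1 - l)).filter (fun i => n / b ^ i % b ^ l = v)).card

/-- Let `c` be a colouring with finitely many colours such that `c m = c n` for all positive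
integers `m`, `n` for which the automaton `up`, reading the base `b` digits from the lowest one up,
ends in the same state, for which the automaton `down`, reading them from the highest one down,
ends in the same state, and in which every block of at most `L` digits occurs equally often.
Then there are monochromatic Pythagorean triples with arbitrarily large entries. -/
theorem result {b : ℕ} (hb : 2 ≤ b) (L : ℕ) {P Q : Type*} [Finite P] [Finite Q]
    (up : P → ℕ → P) (p₀ : P) (down : Q → ℕ → Q) (q₀ : Q) {κ : Type*} [Finite κ] (c : ℕ → κ)
    (hc : ∀ m n, 0 < m → 0 < n →
      (Nat.digits b m).foldl up p₀ = (Nat.digits b n).foldl up p₀ →
      (Nat.digits b m).reverse.foldl down q₀ = (Nat.digits b n).reverse.foldl down q₀ →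
      (∀ l ≤ L, ∀ v, blockCount b l v m = blockCount b l v n) → c m = c n) (K : ℕ) :
    ∃ x y z, K < x ∧ K < y ∧ K < z ∧ x ^ 2 + y ^ 2 = z ^ 2 ∧ c x = c y ∧ c y = c z :=
  Q206.PY.main_auto hb up p₀ down q₀ c hc K

end Pool.Agent.Results.MP_0f91f8_co.BlockCounts
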