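import Pool.Agent.Q119.Py.Top3
import Pool.Agent.Q119.Py.Top4
import Pool.Agent.Q119.Py.TopK
import Pool.Agent.Q119.Py.Red
import Pool.Agent.Results.MP_0f91f8_co.GeneralisedPolynomialColourings

/-!
# Pythagorean triples in multiplicatively equivariant colourings with at most four colours

A colouring `c` of the positive integers is equivariant under a prime `p` if the colour of `p n` is
determined by the colour of `n`.  For example, a completely multiplicative function with finitely
many values (in any set with a multiplication) is equivariant under all primes.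

* If `c` has at most four colours and is equivariant under the 62 primes below 300, then there are
  arbitrarily large monochromatic Pythagorean triples.
* If `f` has at most four colours and is equivariant under all primes, then every colouring `c`, with
  any number of colours, for which `c n` is determined by `f n` and the signs of finitely many
  generalised polynomials at `n` has arbitrarily large monochromatic Pythagorean triples.

Method.  On the multiples of a suitable number the colour of `n p₁ ^ a₁ ⋯ p₆₂ ^ a₆₂` is an injective
function of the sum of the `aᵢ gᵢ` in an abelian group with at most four elements.  So the first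
statement has to be proved for all functions from the 62 primes to `ℤ/3`, `ℤ/4` and `ℤ/2 × ℤ/2`.  For each
of the three groups a decision tree, found by computer, refutes the existence of a function without
a monochromatic triple; its leaves are Pythagorean triples all of whose prime factors are below 300
(262, 1982 and 2007 triples; 1311, 324556 and 89298 branchings).  The trees and the tables of the
triples are verified by the kernel with a verified checker.
-/

set_option autoImplicit false

namespace Pool.Agent.Results.MP_0f91f8_co.EquivariantColourings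

open Pool.Agent.Results.MP_0f91f8_co.GeneralisedPolynomialColourings (GenPoly SameSigns)

/-- The colour of `p n` is determined by the colour of `n`. -/
def Equivariant {κ : Type} (c : ℕ → κ) (p : ℕ) : Prop :=
  ∀ m n : ℕ, 0 < m → 0 < n → c m = c n → c (p * m) = c (p * n)

/-- There are arbitrarily large Pythagorean triples all of whose members have the same colour. -/
def HasTriples {κ : Type} (c : ℕ → κ) : Prop :=
  ∀ K : ℕ, ∃ x y z : ℕ, K < x ∧ K < y ∧ K < z ∧ x ^ 2 + y ^ 2 = z ^ 2 ∧ c x = c y ∧ c y = c z

theorem result :
    (∀ (κ : Type) (S : Finset κ) (c : ℕ → κ), S.card ≤ 4 → (∀ n, 0 < n → c n ∈ S) →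
      (∀ p : ℕ, p.Prime → p < 300 → Equivariant c p) → HasTriples c) ∧
    (∀ (κ : Type) (S : Finset κ) (f : ℕ → κ), S.card ≤ 4 → (∀ n, 0 < n → f n ∈ S) →
      (∀ p : ℕ, p.Prime → Equivariant f p) →
      ∀ (s : ℕ) (g : Fin s → ℕ → ℝ), (∀ i, GenPoly (g i)) → ∀ (κ' : Type) (c : ℕ → κ'),
        (∀ m n : ℕ, 0 < m → 0 < n → f m = f n → SameSigns g m n → c m = c n) →
        HasTriples c) := by
  have h1 : ∀ (κ : Type) (S : Finset κ) (c : ℕ → κ), S.card ≤ 4 → (∀ n, 0 < n → c n ∈ S) →
      (∀ p : ℕ, p.Prime → p < 300 → Equivariant c p) → HasTriples c := fun κ S c hS hcS hc K =>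
    Q119.Py.main Q119.Py.T3.all Q119.Py.T4.all Q119.Py.TK.all S hS c hcS
      (fun p hp hp3 => hc p hp hp3) K
  refine ⟨h1, ?_⟩
  intro κ S f hS hfS hf s g hg κ' c hc K
  have hall : ∀ k : ℕ, 0 < k → Equivariant f k := by
    intro k
    induction k using Nat.recOnMul with
    | zero => intro h; exact absurd h (lt_irrefl 0)
    | one => intro _ m n _ _ h; rw [one_mul, one_mul]; exact h
    | prime p hp => intro _; exact hf p hp
    | mul a b iha ihb =>
      intro h m n hm hn hmn
      have ha : 0 < a := Nat.pos_of_mul_pos_right h
      have hb : 0 < b := Nat.pos_of_mul_pos_left h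
      rw [mul_assoc, mul_assoc]
      exact iha ha _ _ (Nat.mul_pos hb hm) (Nat.mul_pos hb hn) (ihb hb _ _ hm hn hmn)
  obtain ⟨x, y, z, hx, hy, hz, h2, h3, h4⟩ := h1 κ S f hS hfS (fun p hp _ => hf p hp) 0
  obtain ⟨x, y, z, hx, hy, hz, h2, ⟨h3, h3'⟩, ⟨h4, h4'⟩⟩ :=
    GeneralisedPolynomialColourings.result.2.1 s g hg (fun m n => f m = f n)
      (fun k m n hk hm hn h => hall k hk m n hm hn h) ⟨x, y, z, hx, hy, hz, h2, h3, h4⟩ K
  exact ⟨x, y, z, hx, hy, hz, h2, hc x y (by omega) (by omega) h3' h3,
    hc y z (by omega) (by omega) h4' h4⟩

end Pool.Agent.Results.MP_0f91f8_co.EquivariantColourings
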