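import Pool.Agent.Q206.OS.J1
import Pool.Agent.Q206.OS.Final

/-!
# Pythagorean triples in colourings computed from Zeckendorf representations

For `d ≥ 1` let `U 0 = 1`, `U 1 = d`, `U (n + 2) = d U (n + 1) + U n` (the Fibonacci numbers for
`d = 1`, the Pell numbers for `d = 2`).  Every natural number has exactly one representation
`∑ w_i U_i` with digits `w_i ≤ d` such that a digit `d` has the digit `0` below it, the lowest digit
is less than `d` and the highest digit is not `0`; for `d = 1` this is the Zeckendorf
representation (with one more digit `0` at the lowest place).  Every colouring of the positive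
integers computed from this representation by finite automata, reading it upwards and downwards,
has arbitrarily large monochromatic Pythagorean triples.

Method.  Let `L` be the Lucas sequence `2, d, d ^ 2 + 2, …`.  The triples are `a` times
`4 L (2 m) L (2 k)`, `4 L (2 m) ^ 2 - L (2 k) ^ 2`, `4 L (2 m) ^ 2 + L (2 k) ^ 2`.  Multiplication by
`L (2 t)` shifts a sparse representation upwards and downwards by `2 t` places and adds the two; the
multiplier `a` is one fourth of a sum of many shifted copies of a word which begins and ends with a
word in the minimal ideal of the transition monoid.  A number `n` together with its shift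
determines its digits by an estimate for the conjugate of the metallic mean.  The three
representations are powers of words which agree in the minimal ideal up to the group coordinate,
and suitable powers are the same idempotent.
-/

set_option autoImplicit false

namespace Pool.Agent.Results.MP_0f91f8_co.MetallicNumeration

/-- `U 0 = 1`, `U 1 = d`, `U (n + 2) = d * U (n + 1) + U n`. -/
def U (d : ℕ) : ℕ → ℕ
  | 0 => 1
  | 1 => d
  | n + 2 => d * U d (n + 1) + U d n

/-- The word `w`, lowest digit first, is the representation of `n`: its digits are at most `d`, a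
digit `d` has the digit `0` below it, the lowest digit is less than `d`, the highest digit is not
`0`, and `n` is the sum of the numbers `w_i * U d i`. -/
def IsRep (d : ℕ) (w : List ℕ) (n : ℕ) : Prop :=
  (∀ a ∈ w, a ≤ d) ∧ (∀ i, w.getD (i + 1) 0 = d → w.getD i 0 = 0) ∧ w.getD 0 0 < d ∧
    w.getLast? ≠ some 0 ∧ ∑ i ∈ Finset.range w.length, w.getD i 0 * U d i = n

theorem U_eq (d : ℕ) : ∀ n, Q206.OS.U d n = U d n
  | 0 => rfl
  | 1 => rfl
  | n + 2 => by rw [Q206.OS.U, U, U_eq d (n + 1), U_eq d n]

theorem isRep_eq (d : ℕ) (w : List ℕ) (n : ℕ) : Q206.OS.IsRep d w n = IsRep d w n := by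
  unfold Q206.OS.IsRep IsRep
  simp only [U_eq]

/-- Every natural number has exactly one representation; and if `c` is a colouring such that
`c m = c n` for all positive integers `m`, `n` for which the automaton `up`, reading the
representation from the lowest digit up, ends in the same state, and the automaton `down`, reading
it from the highest digit down, ends in the same state, then there are monochromatic Pythagorean
triples with arbitrarily large entries. -/
theorem result {d : ℕ} (hd : 0 < d) :
    (∀ n, ∃! w, IsRep d w n) ∧
    ∀ {P Q : Type*} [Finite P] [Finite Q] (up : P → ℕ → P) (p₀ : P) (down : Q → ℕ → Q) (q₀ : Q)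
      {κ : Type*} (c : ℕ → κ),
      (∀ m n u v, 0 < m → 0 < n → IsRep d u m → IsRep d v n →
        u.foldl up p₀ = v.foldl up p₀ → u.reverse.foldl down q₀ = v.reverse.foldl down q₀ →
        c m = c n) →
      ∀ K : ℕ, ∃ x y z, K < x ∧ K < y ∧ K < z ∧ x ^ 2 + y ^ 2 = z ^ 2 ∧ c x = c y ∧ c y = c z := by
  refine ⟨fun n => ?_, fun {P Q} _ _ up p₀ down q₀ {κ} c hc K => ?_⟩
  · obtain ⟨w, hw, hu⟩ := Q206.OS.exists_unique_rep Q206.OS.j1 hd n
    refine ⟨w, ?_, fun v hv => hu v ?_⟩
    · show IsRep d w n
      rw [← isRep_eq]
      exact (Q206.OS.isRep_iff hd w n).2 hw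
    · have hv' : IsRep d v n := hv
      rw [← isRep_eq] at hv'
      exact (Q206.OS.isRep_iff hd v n).1 hv'
  · exact Q206.OS.main_auto Q206.OS.j1 hd up p₀ down q₀ c
      (fun m n u v hm hn hu hv h1 h2 => hc m n u v hm hn (by rw [← isRep_eq]; exact hu)
        (by rw [← isRep_eq]; exact hv) h1 h2) K

end Pool.Agent.Results.MP_0f91f8_co.MetallicNumeration
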